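import Pool.Agent.Helper40.DG2.Insert
import Pool.Agent.Helper59.DG2.Layout

/-!
# Dark islands: a grid is inserted at a crossing
-/

set_option autoImplicit false

namespace Pool.Agent.Helper74.DG2

open Pool.Agent.Helper18.RAC Pool.Agent.Helper40.DG2 Complex
open Pool.Agent.Helper82.DG (XCross)

variable {V : Type*}

theorem insert_grid [Finite V] {G : SimpleGraph V} {f : V → ℂ} (hf : IsRAC G f) {κ : GX → V}
    {M : ℕ} (hM : 5 ≤ M)
    (hx : XCross G f (κ (.X false)) (κ (.Y false)) (κ (.X true)) (κ (.Y true)))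
    (hinj : ∀ x y : GN, x.ok M → y.ok M → κ (.v x) = κ (.v y) → x = y)
    (hiso : ∀ x : GN, x.ok M → ∀ v, ¬ G.Adj (κ (.v x)) v) :
    ∃ f' : V → ℂ, IsRAC (G ⊔ SimpleGraph.fromEdgeSet (gridE κ M)) f' ∧
      ∀ n s e w, XCross G f n s e w →
        s(n, s) ≠ s(κ (.X false), κ (.Y false)) → s(n, s) ≠ s(κ (.X true), κ (.Y true)) →
        s(e, w) ≠ s(κ (.X false), κ (.Y false)) → s(e, w) ≠ s(κ (.X true), κ (.Y true)) →
        XCross (G ⊔ SimpleGraph.fromEdgeSet (gridE κ M)) f' n s e w :=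
  insert_core hf hM (fun hn hs he hw => layout_inj hM hn hs he hw)
    (fun hn hs he hw => layout_vtx hM hn hs he hw) hx hinj hiso

end Pool.Agent.Helper74.DG2
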