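import Pool.Agent.Helper40.DG2.Shape
import Pool.Agent.Helper40.DG.LayoutCrs

/-!
# Dark islands: crossings in the layout of a grid are perpendicular
-/

set_option autoImplicit false

namespace Pool.Agent.Helper40.DG2

open Pool.Agent.Helper18.RAC Pool.Agent.Helper74.DG2 Complex
open Pool.Agent.Helper40.DG (comb_lt comb_lt' comb_gt comb_gt' floor_of floor_nat cu cv cu_not
  cv_not seg_coord apex_eq dotp_cross)

section facts

variable {M : ℕ} {p q u v : ℝ}

theorem fct_ax (hu : u = 0) : Fct M .ax u v := by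
  subst hu
  exact ⟨rfl, by simp⟩

theorem fct_yp {j : ℕ} {s : ℝ} (hp : 0 < p) (hq : 0 < q) (hpq : p + q = 1)
    (hs : 2 * M + 3 < s) (hu : u = p * 0 + q * (j + 1)) (hv : v = p * (-s) + q * (-1)) :
    Fct M (.yp j) u v := by
  have hM : (0 : ℝ) ≤ M := by positivity
  have hj : (0 : ℝ) ≤ j := by positivity
  refine ⟨?_, ?_⟩
  · rw [hu]; exact comb_gt' hp hq hpq le_rfl (by linarith)
  · rw [hv]; exact comb_lt hp hq hpq (by linarith) le_rfl

theorem fct_xu {c : ℕ} {n : ℝ} (hp : 0 < p) (hq : 0 < q) (hpq : p + q = 1)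
    (hn : 2 * M + 3 < n) (hc : c < M) (hu : u = p * 0 + q * (2 * c + 1))
    (hv : v = p * n + q * (2 * M + 2)) : Fct M (.xu c) u v := by
  have hc' : (c : ℝ) + 1 ≤ M := by exact_mod_cast hc
  have h0 : (0 : ℝ) ≤ c := by positivity
  refine ⟨?_, ?_, ?_⟩
  · rw [hu]; exact comb_gt' hp hq hpq le_rfl (by linarith)
  · rw [hu]; exact comb_lt hp hq hpq (by linarith) (by linarith)
  · rw [hv]; exact comb_gt hp hq hpq (by linarith) le_rfl

theorem fct_xp {e : ℝ} (hp : 0 < p) (hq : 0 < q) (hpq : p + q = 1) (he : 2 * M + 3 < e)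
    (hu : u = p * e + q * (2 * M)) (hv : v = p * 0 + q * (-1)) : Fct M .xp u v := by
  refine ⟨?_, ?_, ?_⟩
  · rw [hu]; exact comb_gt hp hq hpq (by linarith) le_rfl
  · rw [hv]; exact comb_gt hp hq hpq (by linarith) le_rfl
  · rw [hv]; exact comb_lt' hp hq hpq le_rfl (by linarith)

theorem fct_up {c : ℕ} (hp : 0 < p) (hq : 0 < q) (hpq : p + q = 1) (hc : c < M)
    (hu : u = p * (2 * c + 1) + q * (2 * c + 1)) (hv : v = p * (2 * M + 2) + q * (-1)) :
    Fct M (.up c) u v := by
  have hc' : (c : ℝ) + 1 ≤ M := by exact_mod_cast hc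
  have h0 : (0 : ℝ) ≤ c := by positivity
  have hu' : u = 2 * c + 1 := by rw [hu, ← add_mul, hpq, one_mul]
  have h := floor_nat (u := u) (m := 2 * c + 1) (by rw [hu']; push_cast; ring)
  refine ⟨hc, by rw [h.1]; push_cast; ring, h.2, by linarith, by linarith, ?_, ?_⟩
  · rw [hv]; exact comb_gt hp hq hpq (by linarith) le_rfl
  · rw [hv]; exact comb_lt' hp hq hpq le_rfl (by linarith)

theorem fct_pd {c : ℕ} (hp : 0 < p) (hq : 0 < q) (hpq : p + q = 1) (hc : c < M)
    (hu : u = p * (2 * c + 2) + q * (2 * c + 2)) (hv : v = p * (-1) + q * 2) :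
    Fct M (.pd c) u v := by
  have hc' : (c : ℝ) + 1 ≤ M := by exact_mod_cast hc
  have h0 : (0 : ℝ) ≤ c := by positivity
  have hu' : u = 2 * c + 2 := by rw [hu, ← add_mul, hpq, one_mul]
  have h := floor_nat (u := u) (m := 2 * c + 2) (by rw [hu']; push_cast; ring)
  refine ⟨hc, by rw [h.1]; push_cast; ring, h.2, by linarith, by linarith, ?_, ?_⟩
  · rw [hv]; exact comb_gt' hp hq hpq le_rfl (by linarith)
  · rw [hv]; exact comb_lt hp hq hpq (by linarith) le_rfl

theorem fct_bd {c : ℕ} (hp : 0 < p) (hq : 0 < q) (hpq : p + q = 1) (hc : c + 1 < M)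
    (hu : u = p * 2 + q * 2) (hv : v = p * (2 * c + 2) + q * (2 * c + 4)) :
    Fct M (.bd c) u v := by
  have hc' : (c : ℝ) + 2 ≤ M := by exact_mod_cast hc
  have h0 : (0 : ℝ) ≤ c := by positivity
  have hu' : u = 2 := by rw [hu, ← add_mul, hpq, one_mul]
  have h := floor_nat (u := u) (m := 2) (by rw [hu']; norm_num)
  have h2 : 2 * (c : ℝ) + 2 < v := by rw [hv]; exact comb_gt' hp hq hpq le_rfl (by linarith)
  have h3 : v < 2 * c + 4 := by rw [hv]; exact comb_lt hp hq hpq (by linarith) le_rfl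
  refine ⟨by omega, by rw [h.1]; norm_num, h.2, by linarith, by linarith, by linarith,
    by linarith, ?_, ?_⟩
  · rw [Int.le_floor]; push_cast; linarith
  · have h4 : ⌊v⌋ < 2 * c + 4 := by rw [Int.floor_lt]; push_cast; linarith
    omega

theorem cl_aux {j : ℕ} {a b : ℝ} (hp : 0 < p) (hq : 0 < q) (hpq : p + q = 1)
    (hj : j + 1 < 2 * M) (hu : u = p * a + q * b)
    (h : (j + 1 < a ∧ a < (j : ℝ) + 2 ∧ j + 1 ≤ b ∧ b ≤ (j : ℝ) + 2) ∨
      (j + 1 ≤ a ∧ a ≤ (j : ℝ) + 2 ∧ j + 1 < b ∧ b < (j : ℝ) + 2) ∨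
      (a = (j : ℝ) + 1 ∧ b = j + 2)) :
    ⌊u⌋ = (j : ℤ) + 1 ∧ u ≠ (⌊u⌋ : ℝ) ∧ 1 ≤ u ∧ u < 2 * M := by
  have hj' : (j : ℝ) + 2 ≤ 2 * M := by exact_mod_cast hj
  have hj0 : (0 : ℝ) ≤ j := by positivity
  have h1 : (j : ℝ) + 1 < u := by
    rw [hu]
    rcases h with h | h | h
    · exact comb_gt hp hq hpq h.1 h.2.2.1
    · exact comb_gt' hp hq hpq h.1 h.2.2.1
    · exact comb_gt' hp hq hpq h.1.ge (by linarith [h.2])
  have h2 : u < j + 2 := by
    rw [hu]
    rcases h with h | h | h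
    · exact comb_lt hp hq hpq h.2.1 h.2.2.2
    · exact comb_lt' hp hq hpq h.2.1 h.2.2.2
    · exact comb_lt hp hq hpq (by linarith [h.1]) h.2.le
  have h3 := floor_of h1 h2
  exact ⟨h3.1, h3.2, by linarith, by linarith⟩

theorem fct_pp {j : ℕ} (hp : 0 < p) (hq : 0 < q) (hpq : p + q = 1) (hj : j + 1 < 2 * M)
    (hu : u = p * (j + 1) + q * (j + 2)) (hv : v = p * (-1) + q * (-1)) :
    Fct M (.pp j) u v := by
  obtain ⟨h1, h2, h3, h4⟩ := cl_aux hp hq hpq hj hu (Or.inr (Or.inr ⟨rfl, rfl⟩))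
  exact ⟨h1, h2, h3, h4, by rw [hv, ← add_mul, hpq, one_mul]⟩

theorem fct_pa {j : ℕ} (hp : 0 < p) (hq : 0 < q) (hpq : p + q = 1) (hj : j + 1 < 2 * M)
    (hu : u = p * (j + 1) + q * (j + 3 / 2)) (hv : v = p * (-1) + q * (-1 / 2)) :
    Fct M (.pa j) u v := by
  obtain ⟨h1, h2, h3, h4⟩ := cl_aux hp hq hpq hj hu
    (Or.inr (Or.inl ⟨by linarith, by linarith, by linarith, by linarith⟩))
  refine ⟨h1, h2, h3, h4, ?_, ?_, ?_⟩
  · rw [hv]; exact comb_gt' hp hq hpq le_rfl (by linarith)
  · rw [hv]; exact comb_lt hp hq hpq (by linarith) le_rfl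
  · rw [h1, hu, hv]; push_cast; linear_combination ((j : ℝ) + 2) * hpq

theorem fct_pb {j : ℕ} (hp : 0 < p) (hq : 0 < q) (hpq : p + q = 1) (hj : j + 1 < 2 * M)
    (hu : u = p * (j + 1) + q * (j + 3 / 2)) (hv : v = p * (-1) + q * (-3 / 4)) :
    Fct M (.pb j) u v := by
  obtain ⟨h1, h2, h3, h4⟩ := cl_aux hp hq hpq hj hu
    (Or.inr (Or.inl ⟨by linarith, by linarith, by linarith, by linarith⟩))
  refine ⟨h1, h2, h3, h4, ?_, ?_, ?_⟩
  · rw [hv]; exact comb_gt' hp hq hpq le_rfl (by linarith)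
  · rw [hv]; exact comb_lt hp hq hpq (by linarith) le_rfl
  · rw [h1, hu, hv]; push_cast; linear_combination ((j : ℝ) + 3) * hpq

theorem fct_qa {j : ℕ} (hp : 0 < p) (hq : 0 < q) (hpq : p + q = 1) (hj : j + 1 < 2 * M)
    (hu : u = p * (j + 2) + q * (j + 3 / 2)) (hv : v = p * (-1) + q * (-1 / 2)) :
    Fct M (.qa j) u v := by
  obtain ⟨h1, h2, h3, h4⟩ := cl_aux hp hq hpq hj hu
    (Or.inr (Or.inl ⟨by linarith, by linarith, by linarith, by linarith⟩))
  refine ⟨h1, h2, h3, h4, ?_, ?_, ?_⟩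
  · rw [hv]; exact comb_gt' hp hq hpq le_rfl (by linarith)
  · rw [hv]; exact comb_lt hp hq hpq (by linarith) le_rfl
  · rw [h1, hu, hv]; push_cast; linear_combination ((j : ℝ) + 1) * hpq

theorem fct_qb {j : ℕ} (hp : 0 < p) (hq : 0 < q) (hpq : p + q = 1) (hj : j + 1 < 2 * M)
    (hu : u = p * (j + 2) + q * (j + 3 / 2)) (hv : v = p * (-1) + q * (-3 / 4)) :
    Fct M (.qb j) u v := by
  obtain ⟨h1, h2, h3, h4⟩ := cl_aux hp hq hpq hj hu
    (Or.inr (Or.inl ⟨by linarith, by linarith, by linarith, by linarith⟩))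
  refine ⟨h1, h2, h3, h4, ?_, ?_, ?_⟩
  · rw [hv]; exact comb_gt' hp hq hpq le_rfl (by linarith)
  · rw [hv]; exact comb_lt hp hq hpq (by linarith) le_rfl
  · rw [h1, hu, hv]; push_cast; linear_combination (j : ℝ) * hpq

theorem fct_cc {j : ℕ} (hp : 0 < p) (hq : 0 < q) (hpq : p + q = 1) (hj : j + 1 < 2 * M)
    (hu : u = p * (j + 3 / 2) + q * (j + 3 / 2)) (hv : v = p * (-1 / 2) + q * (-3 / 4)) :
    Fct M (.cc j) u v := by
  obtain ⟨h1, h2, h3, h4⟩ := cl_aux hp hq hpq hj hu
    (Or.inr (Or.inl ⟨by linarith, by linarith, by linarith, by linarith⟩))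
  refine ⟨h1, h2, h3, h4, ?_, ?_, ?_⟩
  · rw [hv]; exact comb_gt hp hq hpq (by linarith) le_rfl
  · rw [hv]; exact comb_lt' hp hq hpq le_rfl (by linarith)
  · rw [h1, hu]; push_cast; linear_combination ((j : ℝ) + 3 / 2) * hpq

theorem fct_uu (hp : 0 < p) (hq : 0 < q) (hpq : p + q = 1)
    (hu : u = p * (2 * M - 1) + q * (2 * M + 2)) (hv : v = p * (2 * M + 2) + q * (2 * M - 1)) :
    Fct M .uu u v := by
  refine ⟨?_, ?_, ?_⟩
  · rw [hu, hv]; linear_combination (4 * (M : ℝ) + 1) * hpq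
  · rw [hu]; exact comb_gt' hp hq hpq le_rfl (by linarith)
  · rw [hv]; exact comb_gt hp hq hpq (by linarith) le_rfl

theorem fct_uq (hp : 0 < p) (hq : 0 < q) (hpq : p + q = 1)
    (hu : u = p * (2 * M - 1) + q * (2 * M + 1 / 4))
    (hv : v = p * (2 * M + 2) + q * (2 * M + 1 / 4)) : Fct M .uq u v := by
  refine ⟨?_, ?_, ?_⟩
  · rw [hu, hv]; linear_combination (24 * (M : ℝ) + 3) * hpq
  · rw [hu]; exact comb_gt' hp hq hpq le_rfl (by linarith)
  · rw [hu]; exact comb_lt hp hq hpq (by linarith) le_rfl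

theorem fct_ud (hp : 0 < p) (hq : 0 < q) (hpq : p + q = 1)
    (hu : u = p * (2 * M - 1) + q * (2 * M)) (hv : v = p * (2 * M + 2) + q * (2 * M)) :
    Fct M .ud u v := by
  refine ⟨?_, ?_, ?_⟩
  · rw [hu, hv]; linear_combination (6 * (M : ℝ)) * hpq
  · rw [hu]; exact comb_gt' hp hq hpq le_rfl (by linarith)
  · rw [hu]; exact comb_lt hp hq hpq (by linarith) le_rfl

theorem fct_qd (hp : 0 < p) (hq : 0 < q) (hpq : p + q = 1)
    (hu : u = p * (2 * M + 1 / 4) + q * (2 * M)) (hv : v = p * (2 * M + 1 / 4) + q * (2 * M)) :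
    Fct M .qd u v := by
  refine ⟨?_, ?_, ?_⟩
  · rw [hu, hv]
  · rw [hu]; exact comb_gt hp hq hpq (by linarith) le_rfl
  · rw [hu]; exact comb_lt' hp hq hpq le_rfl (by linarith)

theorem fct_da (hp : 0 < p) (hq : 0 < q) (hpq : p + q = 1)
    (hu : u = p * (2 * M) + q * (2 * M + 2)) (hv : v = p * 2 + q * 1) : Fct M .da u v := by
  have h1 : (1 : ℝ) < v := by rw [hv]; exact comb_gt hp hq hpq (by linarith) le_rfl
  have h2 : v < 2 := by rw [hv]; exact comb_lt' hp hq hpq le_rfl (by linarith)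
  have h := floor_of (u := v) (j := 0) (by push_cast; linarith) (by push_cast; linarith)
  refine ⟨?_, ?_, ?_, h.2, by rw [h.1]; norm_num⟩
  · rw [hu, hv]; linear_combination (2 * (M : ℝ) + 4) * hpq
  · rw [hu]; exact comb_gt' hp hq hpq le_rfl (by linarith)
  · rw [hu]; exact comb_lt hp hq hpq (by linarith) le_rfl

theorem fct_db (hp : 0 < p) (hq : 0 < q) (hpq : p + q = 1)
    (hu : u = p * (2 * M) + q * (2 * M + 2)) (hv : v = p * 2 + q * 3) : Fct M .db u v := by
  have h1 : (2 : ℝ) < v := by rw [hv]; exact comb_gt' hp hq hpq le_rfl (by linarith)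
  have h2 : v < 3 := by rw [hv]; exact comb_lt hp hq hpq (by linarith) le_rfl
  have h := floor_of (u := v) (j := 1) (by push_cast; linarith) (by push_cast; linarith)
  refine ⟨?_, ?_, ?_, h.2, by rw [h.1]; norm_num⟩
  · rw [hu, hv]; linear_combination (2 * (M : ℝ) - 4) * hpq
  · rw [hu]; exact comb_gt' hp hq hpq le_rfl (by linarith)
  · rw [hu]; exact comb_lt hp hq hpq (by linarith) le_rfl

/-- a point of an island -/
theorem isl_aux {c m : ℕ} {t : ℝ} (hM : 5 ≤ M) (hc : c + 1 < M) (hc0 : 1 ≤ c) (hm : m + 3 ≤ M)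
    (h1 : (m : ℝ) - 1 < 2 * M * (t - (2 * c + 2))) (h2 : 2 * M * (t - (2 * c + 2)) < m)
    (hm1 : 1 ≤ m) : ⌊t⌋ = 2 * (c : ℤ) + 2 ∧ t ≠ (⌊t⌋ : ℝ) ∧ 3 < t ∧ t < 2 * M - 1 := by
  have hM' : (5 : ℝ) ≤ M := by exact_mod_cast hM
  have hc' : (c : ℝ) + 2 ≤ M := by exact_mod_cast hc
  have hc1 : (1 : ℝ) ≤ c := by exact_mod_cast hc0
  have hm' : (m : ℝ) + 3 ≤ M := by exact_mod_cast hm
  have hm2 : (1 : ℝ) ≤ m := by exact_mod_cast hm1
  have h3 : 0 < t - (2 * c + 2) := by
    by_contra h
    push Not at h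
    have := mul_nonpos_of_nonneg_of_nonpos (by positivity : (0 : ℝ) ≤ 2 * M) h
    linarith
  have h4 : t - (2 * c + 2) < 1 / 2 := by
    by_contra h
    push Not at h
    have := mul_le_mul_of_nonneg_left h (by positivity : (0 : ℝ) ≤ 2 * M)
    linarith
  have h5 : ⌊t⌋ = 2 * (c : ℤ) + 2 := by
    rw [Int.floor_eq_iff]
    push_cast
    constructor <;> linarith
  refine ⟨h5, ?_, by linarith, by linarith⟩
  rw [h5]
  push_cast
  intro h6
  linarith

theorem fct_ul {k m : ℕ} (hM : 5 ≤ M) (hp : 0 < p) (hq : 0 < q) (hpq : p + q = 1) (hk : 1 ≤ k)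
    (hm : 1 ≤ m) (hkm : k + m + 3 ≤ M)
    (hu : u = p * (2 * (cc M k : ℝ) + 2 + ph M m) + q * (2 * (cc M k : ℝ) + 2 + ph M (m + 1)))
    (hv : v = p * (2 * (cc M m : ℝ) + 2 + ph M k) + q * (2 * (cc M m : ℝ) + 2 + ph M (k + 1))) :
    Fct M (.ul k m) u v := by
  have hM' : (5 : ℝ) ≤ M := by exact_mod_cast hM
  have hne : (2 * (M : ℝ)) ≠ 0 := by positivity
  have hu' : 2 * M * (u - (2 * (cc M k : ℝ) + 2)) = p * ((m : ℝ) - 1) + q * m := by
    have h1 : 2 * (M : ℝ) * ph M m = m - 1 := by unfold ph; field_simp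
    have h2 : 2 * (M : ℝ) * ph M (m + 1) = m := by unfold ph; push_cast; field_simp; ring
    rw [hu]
    linear_combination p * h1 + q * h2 + 2 * M * (2 * (cc M k : ℝ) + 2) * hpq
  have hv' : 2 * M * (v - (2 * (cc M m : ℝ) + 2)) = p * ((k : ℝ) - 1) + q * k := by
    have h1 : 2 * (M : ℝ) * ph M k = k - 1 := by unfold ph; field_simp
    have h2 : 2 * (M : ℝ) * ph M (k + 1) = k := by unfold ph; push_cast; field_simp; ring
    rw [hv]
    linear_combination p * h1 + q * h2 + 2 * M * (2 * (cc M m : ℝ) + 2) * hpq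
  have a1 : (m : ℝ) - 1 < 2 * M * (u - (2 * (cc M k : ℝ) + 2)) := by
    rw [hu']; exact comb_gt' hp hq hpq le_rfl (by linarith)
  have a2 : 2 * M * (u - (2 * (cc M k : ℝ) + 2)) < m := by
    rw [hu']; exact comb_lt hp hq hpq (by linarith) le_rfl
  have a3 : (k : ℝ) - 1 < 2 * M * (v - (2 * (cc M m : ℝ) + 2)) := by
    rw [hv']; exact comb_gt' hp hq hpq le_rfl (by linarith)
  have a4 : 2 * M * (v - (2 * (cc M m : ℝ) + 2)) < k := by
    rw [hv']; exact comb_lt hp hq hpq (by linarith) le_rfl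
  have k0 := cc_pos (M := M) hk (by omega)
  have m0 := cc_pos (M := M) hm (by omega)
  have b := isl_aux hM (cc_lt (by omega)) k0 (by omega) a1 a2 hm
  have b' := isl_aux hM (cc_lt (by omega)) m0 (by omega) a3 a4 hk
  refine ⟨k0, m0, b.1, b'.1, b.2.1, b'.2.1, b.2.2.1, b.2.2.2, b'.2.2.1, b'.2.2.2, by omega,
    by omega, ?_, ?_, ?_, ?_⟩
  · rw [b.1]; push_cast; exact a1
  · rw [b.1]; push_cast; exact a2
  · rw [b'.1]; push_cast; exact a3
  · rw [b'.1]; push_cast; exact a4

/-- `v0`, `v1`: the second coordinates of the ends -/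
theorem fct_lk {k m : ℕ} {v0 v1 : ℝ} (hM : 5 ≤ M) (hp : 0 < p) (hq : 0 < q) (hpq : p + q = 1)
    (hk : 1 ≤ k) (hkm : k + m + 3 ≤ M)
    (hu : u = p * (2 * (cc M k : ℝ) + 2 + ph M (m + 1)) + q * (2 * (cc M k : ℝ) + 2 + ph M (m + 1)))
    (hv : v = p * v0 + q * v1) (h0 : 2 ≤ v0) (h0' : v0 < 2 * M - 1) (h1 : 2 < v1)
    (h1' : v1 < 2 * M - 1) : Fct M (.lk k m) u v := by
  have hM' : (5 : ℝ) ≤ M := by exact_mod_cast hM
  have k0 := cc_pos (M := M) hk (by omega)
  have k1 : ((cc M k : ℕ) : ℝ) + 2 ≤ M := by exact_mod_cast cc_lt (M := M) (k := k) (by omega)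
  have k2 : (1 : ℝ) ≤ (cc M k : ℕ) := by exact_mod_cast k0
  have hm' : (m : ℝ) + 4 ≤ M := by
    have : m + 4 ≤ M := by omega
    exact_mod_cast this
  have hm0 : (0 : ℝ) ≤ m := by positivity
  have hne : (2 * (M : ℝ)) ≠ 0 := by positivity
  have hu' : u = 2 * (cc M k : ℝ) + 2 + ph M (m + 1) := by rw [hu, ← add_mul, hpq, one_mul]
  have h2 : 2 * (M : ℝ) * ph M (m + 1) = m := by unfold ph; push_cast; field_simp; ring
  have h3 : 0 ≤ ph M (m + 1) := by unfold ph; push_cast; rw [add_sub_cancel_right]; positivity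
  have h4 : ph M (m + 1) < 1 / 2 := by
    by_contra h
    push Not at h
    have := mul_le_mul_of_nonneg_left h (by positivity : (0 : ℝ) ≤ 2 * M)
    linarith
  have h5 : ⌊u⌋ = 2 * ((cc M k : ℕ) : ℤ) + 2 := by
    rw [Int.floor_eq_iff]
    push_cast
    constructor <;> linarith
  refine ⟨k0, h5, by linarith, by linarith, ?_, ?_, by omega, by omega, ?_⟩
  · rw [hv]; exact comb_gt' hp hq hpq h0 h1
  · rw [hv]; exact comb_lt' hp hq hpq h0'.le h1'
  · rw [h5]; push_cast; linear_combination 2 * (M : ℝ) * hu' + h2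

end facts


/-- shape of a code -/
def shG : GE → Sh
  | .yp _ j => .yp j
  | .xu _ c => .xu c
  | .xp _ => .xp
  | .up _ c => .up c
  | .pd _ c => .pd c
  | .dd _ c => .bd c
  | .pp _ j => .pp j
  | .pc _ j false => .pa j
  | .pc _ j true => .pb j
  | .pc' _ j false => .qa j
  | .pc' _ j true => .qb j
  | .cc _ j => .cc j
  | .uu => .uu
  | .uq _ true => .uq
  | .uq _ false => .ud
  | .qq => .qd
  | .dr _ false => .da
  | .dr _ true => .db
  | .ul k m => .ul k m
  | .lk _ k m => .lk k m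

/-- side of a code -/
def sgG : GE → Bool
  | .yp σ _ => σ
  | .xu σ _ => σ
  | .xp σ => σ
  | .up σ _ => σ
  | .pd σ _ => σ
  | .dd σ _ => !σ
  | .pp σ _ => σ
  | .pc σ _ _ => σ
  | .pc' σ _ _ => σ
  | .cc σ _ => σ
  | .uu => false
  | .uq σ _ => σ
  | .qq => false
  | .dr σ _ => σ
  | .ul _ _ => false
  | .lk σ _ _ => σ

def shF : GF → Sh
  | .ns => .ax
  | .ew => .ax
  | .g c => shG c

def sgF : GF → Bool
  | .ns => false
  | .ew => true
  | .g c => sgG c

/-- the code of a shape and a side -/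
def invF : Sh → Bool → GF
  | .ax, false => .ns
  | .ax, true => .ew
  | .yp j, σ => .g (.yp σ j)
  | .xu c, σ => .g (.xu σ c)
  | .xp, σ => .g (.xp σ)
  | .up c, σ => .g (.up σ c)
  | .pd c, σ => .g (.pd σ c)
  | .bd c, σ => .g (.dd (!σ) c)
  | .pp j, σ => .g (.pp σ j)
  | .pa j, σ => .g (.pc σ j false)
  | .pb j, σ => .g (.pc σ j true)
  | .qa j, σ => .g (.pc' σ j false)
  | .qb j, σ => .g (.pc' σ j true)
  | .cc j, σ => .g (.cc σ j)
  | .uu, _ => .g .uu
  | .uq, σ => .g (.uq σ true)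
  | .ud, σ => .g (.uq σ false)
  | .qd, _ => .g .qq
  | .da, σ => .g (.dr σ false)
  | .db, σ => .g (.dr σ true)
  | .ul k m, _ => .g (.ul k m)
  | .lk k m, σ => .g (.lk σ k m)

theorem invF_eq (k : GF) : invF (shF k) (sgF k) = k := by
  cases k with
  | ns => rfl
  | ew => rfl
  | g c =>
    cases c with
    | pc σ j ε => cases ε <;> rfl
    | pc' σ j ε => cases ε <;> rfl
    | uq σ ε => cases ε <;> rfl
    | dr σ ε => cases ε <;> rfl
    | dd σ c => cases σ <;> rfl
    | _ => rfl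

theorem ext_code {k k' : GF} (h1 : shF k = shF k') (h2 : sgF k = sgF k') : k = k' := by
  rw [← invF_eq k, h1, h2, invF_eq]

theorem sym_side {k : GF} (h : (shF k).sym) : sgF k = false := by
  cases k with
  | ns => exact absurd h id
  | ew => exact absurd h id
  | g c =>
    cases c with
    | pc σ j ε => cases ε <;> exact absurd h id
    | pc' σ j ε => cases ε <;> exact absurd h id
    | uq σ ε => cases ε <;> exact absurd h id
    | dr σ ε => cases ε <;> exact absurd h id
    | uu => rfl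
    | qq => rfl
    | ul k m => rfl
    | _ => exact absurd h id

section main

variable {M : ℕ} {n s e w : ℝ}

/-- the first coordinate of a lower vertex -/
theorem lo_cu (σ : Bool) {k m : ℕ} (hk : 1 ≤ k) :
    cu σ (lay M (GN.lo' M σ k m)) = 2 * (cc M k : ℝ) + 2 + ph M (m + 1) := by
  have hk0 : k ≠ 0 := by omega
  cases σ
  · by_cases hm : m = 0
    · subst hm
      simp [cu, GN.lo', GN.lo, lay, ph]
    · simp [cu, GN.lo', GN.lo, lay, hm, hk0]
  · by_cases hm : m = 0
    · subst hm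
      simp [cu, GN.lo', GN.lo, lay, hk0, ph]
    · simp [cu, GN.lo', GN.lo, lay, hm, hk0]

/-- the second coordinate of a lower vertex -/
theorem lo_cv (hM : 5 ≤ M) (σ : Bool) {k m : ℕ} (hk : 1 ≤ k) (hkm : k + m + 3 ≤ M) :
    2 ≤ cv σ (lay M (GN.lo' M σ k m)) ∧ cv σ (lay M (GN.lo' M σ k m)) < 2 * M - 1 := by
  have hM' : (5 : ℝ) ≤ M := by exact_mod_cast hM
  have hk0 : k ≠ 0 := by omega
  have key : cv σ (lay M (GN.lo' M σ k m)) = 2 ∨
      cv σ (lay M (GN.lo' M σ k m)) = 2 * (cc M m : ℝ) + 2 + ph M (k + 1) := by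
    cases σ
    · by_cases hm : m = 0
      · subst hm
        left
        simp [cv, GN.lo', GN.lo, lay]
      · right
        simp [cv, GN.lo', GN.lo, lay, hm, hk0]
    · by_cases hm : m = 0
      · subst hm
        left
        simp [cv, GN.lo', GN.lo, lay, hk0]
      · right
        simp [cv, GN.lo', GN.lo, lay, hm, hk0]
  rcases key with h | h
  · rw [h]
    constructor <;> linarith
  · rw [h]
    have h3 : 0 ≤ ph M (k + 1) := by unfold ph; push_cast; rw [add_sub_cancel_right]; positivity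
    have hk' : (k : ℝ) + 3 ≤ M := by
      have : k + 3 ≤ M := by omega
      exact_mod_cast this
    have h2 : 2 * (M : ℝ) * ph M (k + 1) = k := by unfold ph; push_cast; field_simp; ring
    have h4 : ph M (k + 1) < 1 / 2 := by
      by_contra h
      push Not at h
      have := mul_le_mul_of_nonneg_left h (by positivity : (0 : ℝ) ≤ 2 * M)
      linarith
    have k1 : ((cc M m : ℕ) : ℝ) + 2 ≤ M := by exact_mod_cast cc_lt (M := M) (k := m) (by omega)
    have k2 : (0 : ℝ) ≤ (cc M m : ℕ) := by positivity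
    constructor <;> linarith

/-- the second coordinate of an upper vertex -/
theorem up_cv (hM : 5 ≤ M) (σ : Bool) {k m : ℕ} (hk : 1 ≤ k) (hkm : k + m + 3 ≤ M) :
    2 < cv σ (lay M (GN.u' σ k (m + 1))) ∧ cv σ (lay M (GN.u' σ k (m + 1))) < 2 * M - 1 := by
  have hM' : (5 : ℝ) ≤ M := by exact_mod_cast hM
  have key : cv σ (lay M (GN.u' σ k (m + 1))) = 2 * (cc M (m + 1) : ℝ) + 2 + ph M k := by
    cases σ <;> simp [cv, GN.u', lay]
  rw [key]
  have hk1 : (1 : ℝ) ≤ k := by exact_mod_cast hk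
  have h3 : 0 ≤ ph M k := by
    unfold ph
    have : 0 ≤ (k : ℝ) - 1 := by linarith
    positivity
  have hk' : (k : ℝ) + 3 ≤ M := by
    have : k + 3 ≤ M := by omega
    exact_mod_cast this
  have h2 : 2 * (M : ℝ) * ph M k = k - 1 := by unfold ph; field_simp
  have h4 : ph M k < 1 / 2 := by
    by_contra h
    push Not at h
    have := mul_le_mul_of_nonneg_left h (by positivity : (0 : ℝ) ≤ 2 * M)
    linarith
  have k1 : ((cc M (m + 1) : ℕ) : ℝ) + 2 ≤ M := by
    exact_mod_cast cc_lt (M := M) (k := m + 1) (by omega)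
  have k2 : (1 : ℝ) ≤ (cc M (m + 1) : ℕ) := by
    exact_mod_cast cc_pos (M := M) (k := m + 1) (by omega) (by omega)
  constructor <;> linarith

theorem u_cu (σ : Bool) {k m : ℕ} :
    cu σ (lay M (GN.u' σ k m)) = 2 * (cc M k : ℝ) + 2 + ph M m := by
  cases σ <;> simp [cu, GN.u', lay]

theorem seg_fct (hM : 5 ≤ M) (hn : 2 * M + 3 < n) (hs : 2 * M + 3 < s)
    (he : 2 * M + 3 < e) (hw : 2 * M + 3 < w) (k : GF) (hk : k.valid M) {z : ℂ}
    (hz : z ∈ openSegment ℝ (layX M n s e w (k.ends M).1) (layX M n s e w (k.ends M).2)) :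
    Fct M (shF k) (cu (sgF k) z) (cv (sgF k) z) := by
  obtain ⟨p, q, hp, hq, hpq, hu, hv⟩ := seg_coord hz (sgF k)
  have hc1 : ((2 * M - 1 : ℕ) : ℝ) = 2 * M - 1 := by
    rw [Nat.cast_sub (by omega)]; push_cast; ring
  have hc2 : ((M - 1 : ℕ) : ℝ) = M - 1 := by
    rw [Nat.cast_sub (by omega)]; push_cast; ring
  cases k with
  | ns =>
    refine fct_ax ?_
    rw [hu]
    simp [sgF, cu, GF.ends, layX]
  | ew =>
    refine fct_ax ?_
    rw [hu]
    simp [sgF, cu, GF.ends, layX]
  | g c =>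
    simp only [GF.valid] at hk
    simp only [GF.ends] at hu hv
    cases c with
    | yp σ j =>
      cases σ
      · exact fct_yp hp hq hpq hs (by refine hu.trans ?_; simp [cu, sgF, sgG, GE.ends, layX, lay])
          (by refine hv.trans ?_; simp [cv, sgF, sgG, GE.ends, layX, lay])
      · exact fct_yp hp hq hpq hw (by refine hu.trans ?_; simp [cu, sgF, sgG, GE.ends, layX, lay])
          (by refine hv.trans ?_; simp [cv, sgF, sgG, GE.ends, layX, lay])
    | xu σ c =>
      cases σ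
      · exact fct_xu hp hq hpq hn hk (by refine hu.trans ?_; simp [cu, sgF, sgG, GE.ends, layX, lay])
          (by refine hv.trans ?_; simp [cv, sgF, sgG, GE.ends, layX, lay])
      · exact fct_xu hp hq hpq he hk (by refine hu.trans ?_; simp [cu, sgF, sgG, GE.ends, layX, lay])
          (by refine hv.trans ?_; simp [cv, sgF, sgG, GE.ends, layX, lay])
    | xp σ =>
      cases σ
      · exact fct_xp hp hq hpq he (by refine hu.trans ?_; simp [cu, sgF, sgG, GE.ends, layX, lay, hc1])
          (by refine hv.trans ?_; simp [cv, sgF, sgG, GE.ends, layX, lay])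
      · exact fct_xp hp hq hpq hn (by refine hu.trans ?_; simp [cu, sgF, sgG, GE.ends, layX, lay, hc1])
          (by refine hv.trans ?_; simp [cv, sgF, sgG, GE.ends, layX, lay])
    | up σ c =>
      cases σ <;>
      exact fct_up hp hq hpq hk (by refine hu.trans ?_; simp [cu, sgF, sgG, GE.ends, layX, lay])
          (by refine hv.trans ?_; simp [cv, sgF, sgG, GE.ends, layX, lay])
    | pd σ c =>
      cases σ <;>
      exact fct_pd hp hq hpq hk
          (by refine hu.trans ?_; simp [-mul_eq_mul_left_iff, cu, sgF, sgG, GE.ends, GN.D', layX, lay]; ring)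
          (by refine hv.trans ?_; simp [cv, sgF, sgG, GE.ends, GN.D', layX, lay])
    | dd σ c =>
      cases σ <;>
      exact fct_bd hp hq hpq hk
          (by refine hu.trans ?_; simp [cu, sgF, sgG, GE.ends, GN.D', layX, lay])
          (by refine hv.trans ?_; simp [-mul_eq_mul_left_iff, cv, sgF, sgG, GE.ends, GN.D', layX, lay]; ring)
    | pp σ j =>
      cases σ <;>
      exact fct_pp hp hq hpq hk (by refine hu.trans ?_; simp [-mul_eq_mul_left_iff, cu, sgF, sgG, GE.ends, layX, lay]; ring)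
          (by refine hv.trans ?_; simp [cv, sgF, sgG, GE.ends, layX, lay])
    | pc σ j ε =>
      cases ε
      · cases σ <;>
        exact fct_pa hp hq hpq hk (by refine hu.trans ?_; simp [cu, sgF, sgG, GE.ends, layX, lay])
          (by refine hv.trans ?_; simp [cv, sgF, sgG, GE.ends, layX, lay])
      · cases σ <;>
        exact fct_pb hp hq hpq hk (by refine hu.trans ?_; simp [cu, sgF, sgG, GE.ends, layX, lay])
          (by refine hv.trans ?_; simp [cv, sgF, sgG, GE.ends, layX, lay])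
    | pc' σ j ε =>
      cases ε
      · cases σ <;>
        exact fct_qa hp hq hpq hk (by refine hu.trans ?_; simp [-mul_eq_mul_left_iff, cu, sgF, sgG, GE.ends, layX, lay]; ring)
          (by refine hv.trans ?_; simp [cv, sgF, sgG, GE.ends, layX, lay])
      · cases σ <;>
        exact fct_qb hp hq hpq hk (by refine hu.trans ?_; simp [-mul_eq_mul_left_iff, cu, sgF, sgG, GE.ends, layX, lay]; ring)
          (by refine hv.trans ?_; simp [cv, sgF, sgG, GE.ends, layX, lay])
    | cc σ j =>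
      cases σ <;>
      exact fct_cc hp hq hpq hk (by refine hu.trans ?_; simp [cu, sgF, sgG, GE.ends, layX, lay])
          (by refine hv.trans ?_; simp [cv, sgF, sgG, GE.ends, layX, lay])
    | uu =>
      exact fct_uu hp hq hpq (by refine hu.trans ?_; simp [-mul_eq_mul_left_iff, cu, sgF, sgG, GE.ends, layX, lay, hc2]; ring)
          (by refine hv.trans ?_; simp [-mul_eq_mul_left_iff, cv, sgF, sgG, GE.ends, layX, lay, hc2]; ring)
    | uq σ ε =>
      cases ε
      · cases σ <;>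
        exact fct_ud hp hq hpq (by refine hu.trans ?_; simp [-mul_eq_mul_left_iff, cu, sgF, sgG, GE.ends, layX, lay, hc2]; ring)
            (by refine hv.trans ?_; simp [-mul_eq_mul_left_iff, cv, sgF, sgG, GE.ends, layX, lay, hc2])
      · cases σ <;>
        exact fct_uq hp hq hpq (by refine hu.trans ?_; simp [-mul_eq_mul_left_iff, cu, sgF, sgG, GE.ends, layX, lay, hc2]; ring)
            (by refine hv.trans ?_; simp [cv, sgF, sgG, GE.ends, layX, lay, hc2])
    | qq =>
      refine fct_qd (p := q) (q := p) hq hp (by linarith) ?_ ?_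
      · refine hu.trans ?_
        simp [-mul_eq_mul_left_iff, cu, sgF, sgG, GE.ends, layX, lay]
        ring
      · refine hv.trans ?_
        simp [-mul_eq_mul_left_iff, cv, sgF, sgG, GE.ends, layX, lay]
        ring
    | dr σ ε =>
      cases ε
      · cases σ <;>
        exact fct_da hp hq hpq (by refine hu.trans ?_; simp [-mul_eq_mul_left_iff, cu, sgF, sgG, GE.ends, GN.D', layX, lay, hc2]; ring)
            (by refine hv.trans ?_; simp [cv, sgF, sgG, GE.ends, GN.D', layX, lay])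
      · cases σ <;>
        exact fct_db hp hq hpq (by refine hu.trans ?_; simp [-mul_eq_mul_left_iff, cu, sgF, sgG, GE.ends, GN.D', layX, lay, hc2]; ring)
            (by refine hv.trans ?_; simp [cv, sgF, sgG, GE.ends, GN.D', layX, lay]; norm_num)
    | ul k m =>
      exact fct_ul hM hp hq hpq hk.1 hk.2.1 hk.2.2
        (by refine hu.trans ?_; simp [cu, sgF, sgG, GE.ends, layX, lay])
        (by refine hv.trans ?_; simp [cv, sgF, sgG, GE.ends, layX, lay])
    | lk σ k m =>
      have a1 := lo_cv hM σ hk.1 hk.2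
      have a2 := up_cv hM σ hk.1 hk.2
      exact fct_lk hM hp hq hpq hk.1 hk.2
        (by
          refine hu.trans ?_
          simp only [sgF, sgG, GE.ends, layX]
          rw [lo_cu σ hk.1, u_cu])
        hv a1.1 a1.2 a2.1 a2.2

theorem vert_eq (k : GF) (hv : k.valid M) (hk : (shF k).vert) :
    cu (sgF k) (layX M n s e w (k.ends M).1) = cu (sgF k) (layX M n s e w (k.ends M).2) := by
  cases k with
  | ns => simp [sgF, cu, GF.ends, layX]
  | ew => simp [sgF, cu, GF.ends, layX]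
  | g c =>
    cases c with
    | up σ c => cases σ <;> simp [sgF, sgG, cu, GF.ends, GE.ends, layX, lay]
    | pd σ c => cases σ <;> simp [sgF, sgG, cu, GF.ends, GE.ends, GN.D', layX, lay] <;> ring
    | dd σ c => cases σ <;> simp [sgF, sgG, cu, GF.ends, GE.ends, GN.D', layX, lay]
    | lk σ k m =>
      simp only [sgF, sgG, GF.ends, GE.ends, layX]
      rw [lo_cu σ hv.1, u_cu]
    | pc σ j ε => cases ε <;> exact absurd hk id
    | pc' σ j ε => cases ε <;> exact absurd hk id
    | uq σ ε => cases ε <;> exact absurd hk id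
    | dr σ ε => cases ε <;> exact absurd hk id
    | _ => exact absurd hk id

end main

end Pool.Agent.Helper40.DG2

namespace Pool.Agent.Helper74.DG2

open Pool.Agent.Helper18.RAC Pool.Agent.Helper40.DG2 Complex
open Pool.Agent.Helper40.DG (cu cv cu_not cv_not apex_eq dotp_cross)

theorem layout_crs {M : ℕ} (hM : 5 ≤ M) {n s e w : ℝ} (hn : 2 * M + 3 < n) (hs : 2 * M + 3 < s)
    (he : 2 * M + 3 < e) (hw : 2 * M + 3 < w) : ∀ k k' : GF, k.valid M → k'.valid M → k ≠ k' →
    ∀ z, z ∈ openSegment ℝ (layX M n s e w (k.ends M).1) (layX M n s e w (k.ends M).2) →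
      z ∈ openSegment ℝ (layX M n s e w (k'.ends M).1) (layX M n s e w (k'.ends M).2) →
      dotp (layX M n s e w (k.ends M).1) (layX M n s e w (k.ends M).2)
        (layX M n s e w (k'.ends M).1) (layX M n s e w (k'.ends M).2) = 0 := by
  intro k k' hk hk' hne z hz hz'
  have f1 := seg_fct hM hn hs he hw k hk hz
  have f2 := seg_fct hM hn hs he hw k' hk' hz'
  have hM0 : (0 : ℝ) ≤ M := by positivity
  by_cases hσ : sgF k = sgF k'
  · rw [← hσ] at f2
    rcases same hM f1 f2 with h | h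
    · exact absurd (ext_code h hσ) hne
    · exfalso
      generalize hS : shF k = S at h
      generalize hS' : shF k' = S' at h
      have e1 := invF_eq k
      have e2 := invF_eq k'
      rw [hS] at e1
      rw [hS', ← hσ] at e2
      cases S with
      | yp j =>
        cases S' with
        | yp j' =>
          generalize sgF k = σ at e1 e2
          change GF.g (.yp σ j) = k at e1
          change GF.g (.yp σ j') = k' at e2
          subst e1 e2
          refine hne ?_
          have h5 : (j : ℝ) = j' := by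
            cases σ
            · have := apex_eq (σ := false) hz hz' (by simp [cv, GF.ends, GE.ends, layX, lay])
                (by simp [cv, GF.ends, GE.ends, layX, lay]; linarith)
              simpa [cu, GF.ends, GE.ends, layX, lay] using this
            · have := apex_eq (σ := true) hz hz' (by simp [cv, GF.ends, GE.ends, layX, lay])
                (by simp [cv, GF.ends, GE.ends, layX, lay]; linarith)
              simpa [cu, GF.ends, GE.ends, layX, lay] using this
          rw [Nat.cast_injective h5]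
        | _ => exact absurd h id
      | xu j =>
        cases S' with
        | xu j' =>
          generalize sgF k = σ at e1 e2
          change GF.g (.xu σ j) = k at e1
          change GF.g (.xu σ j') = k' at e2
          subst e1 e2
          refine hne ?_
          have h5 : (j : ℝ) = j' := by
            cases σ
            · have := apex_eq (σ := false) hz hz' (by simp [cv, GF.ends, GE.ends, layX, lay])
                (by simp [cv, GF.ends, GE.ends, layX, lay]; linarith)
              simpa [cu, GF.ends, GE.ends, layX, lay] using this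
            · have := apex_eq (σ := true) hz hz' (by simp [cv, GF.ends, GE.ends, layX, lay])
                (by simp [cv, GF.ends, GE.ends, layX, lay]; linarith)
              simpa [cu, GF.ends, GE.ends, layX, lay] using this
          rw [Nat.cast_injective h5]
        | _ => exact absurd h id
      | _ => cases S' <;> exact absurd h id
  · have hσ' : sgF k' = !(sgF k) := by
      cases h1 : sgF k <;> cases h2 : sgF k' <;> simp_all
    rw [hσ', cu_not, cv_not] at f2
    rcases cross hM f1 f2 with ⟨h1, h2⟩ | ⟨h1, h2⟩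
    · have g1 := vert_eq (M := M) (n := n) (s := s) (e := e) (w := w) k hk h1
      have g2 := vert_eq (M := M) (n := n) (s := s) (e := e) (w := w) k' hk' h2
      rw [hσ', cu_not, cu_not] at g2
      exact dotp_cross g1 g2
    · exact absurd ((sym_side h1).trans (sym_side h2).symm) hσ

end Pool.Agent.Helper74.DG2
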