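import Pool.Agent.Helper74.DG2.Lay

/-!
# Dark islands: shapes of the edges of a grid and the places of their points

Coordinates `u`, `v`; the shapes are used for `(u, v) = (x, y)` and for `(u, v) = (y, x)`.
-/

set_option autoImplicit false

namespace Pool.Agent.Helper40.DG2

open Pool.Agent.Helper74.DG2

/-- the shapes of the edges -/
inductive Sh
  | ax
  | yp (j : ℕ)
  | xu (c : ℕ)
  | xp
  | up (c : ℕ)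
  | pd (c : ℕ)
  | bd (c : ℕ)
  | pp (j : ℕ)
  | pa (j : ℕ)
  | pb (j : ℕ)
  | qa (j : ℕ)
  | qb (j : ℕ)
  | cc (j : ℕ)
  | uu
  | uq
  | ud
  | qd
  | da
  | db
  | ul (k m : ℕ)
  | lk (k m : ℕ)
  deriving DecidableEq

/-- what is used about the points of the edge of a shape -/
def Fct (M : ℕ) : Sh → ℝ → ℝ → Prop
  | .ax, u, _ => u = 0 ∧ ⌊u⌋ = 0
  | .yp _, u, v => 0 < u ∧ v < -1
  | .xu _, u, v => 0 < u ∧ u < 2 * M ∧ 2 * M + 2 < v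
  | .xp, u, v => 2 * M < u ∧ -1 < v ∧ v < 0
  | .up c, u, v => c < M ∧ ⌊u⌋ = 2 * c + 1 ∧ u = ⌊u⌋ ∧ 1 ≤ u ∧ u ≤ 2 * M - 1 ∧ -1 < v ∧
      v < 2 * M + 2
  | .pd c, u, v => c < M ∧ ⌊u⌋ = 2 * c + 2 ∧ u = ⌊u⌋ ∧ 1 ≤ u ∧ u ≤ 2 * M ∧ -1 < v ∧ v < 2
  | .bd c, u, v => c < M ∧ ⌊u⌋ = 2 ∧ u = ⌊u⌋ ∧ 1 ≤ u ∧ u < 3 ∧ 2 < v ∧
      v < 2 * M ∧ 2 * c + 2 ≤ ⌊v⌋ ∧ ⌊v⌋ ≤ 2 * c + 3
  | .pp j, u, v => ⌊u⌋ = j + 1 ∧ u ≠ ⌊u⌋ ∧ 1 ≤ u ∧ u < 2 * M ∧ v = -1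
  | .pa j, u, v => ⌊u⌋ = j + 1 ∧ u ≠ ⌊u⌋ ∧ 1 ≤ u ∧ u < 2 * M ∧ -1 < v ∧ v < -1 / 2 ∧
      u - v = ⌊u⌋ + 1
  | .qa j, u, v => ⌊u⌋ = j + 1 ∧ u ≠ ⌊u⌋ ∧ 1 ≤ u ∧ u < 2 * M ∧ -1 < v ∧ v < -1 / 2 ∧
      u + v = ⌊u⌋
  | .pb j, u, v => ⌊u⌋ = j + 1 ∧ u ≠ ⌊u⌋ ∧ 1 ≤ u ∧ u < 2 * M ∧ -1 < v ∧ v < -3 / 4 ∧
      u - 2 * v = ⌊u⌋ + 2
  | .qb j, u, v => ⌊u⌋ = j + 1 ∧ u ≠ ⌊u⌋ ∧ 1 ≤ u ∧ u < 2 * M ∧ -1 < v ∧ v < -3 / 4 ∧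
      u + 2 * v = ⌊u⌋ - 1
  | .cc j, u, v => ⌊u⌋ = j + 1 ∧ u ≠ ⌊u⌋ ∧ 1 ≤ u ∧ u < 2 * M ∧ -3 / 4 < v ∧ v < -1 / 2 ∧
      u = ⌊u⌋ + 1 / 2
  | .uu, u, v => u + v = 4 * M + 1 ∧ 2 * M - 1 < u ∧ 2 * M - 1 < v
  | .uq, u, v => 7 * u + 5 * v = 24 * M + 3 ∧ 2 * M - 1 < u ∧ u < 2 * M + 1 / 4
  | .ud, u, v => 2 * u + v = 6 * M ∧ 2 * M - 1 < u ∧ u < 2 * M
  | .qd, u, v => u = v ∧ 2 * M < u ∧ u < 2 * M + 1 / 4
  | .da, u, v => u + 2 * v = 2 * M + 4 ∧ 2 * M < u ∧ u < 2 * M + 2 ∧ v ≠ ⌊v⌋ ∧ ⌊v⌋ = 1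
  | .db, u, v => u - 2 * v = 2 * M - 4 ∧ 2 * M < u ∧ u < 2 * M + 2 ∧ v ≠ ⌊v⌋ ∧ ⌊v⌋ = 2
  | .ul k m, u, v => 1 ≤ cc M k ∧ 1 ≤ cc M m ∧ ⌊u⌋ = 2 * cc M k + 2 ∧ ⌊v⌋ = 2 * cc M m + 2 ∧
      u ≠ ⌊u⌋ ∧ v ≠ ⌊v⌋ ∧ 3 < u ∧ u < 2 * M - 1 ∧ 3 < v ∧ v < 2 * M - 1 ∧
      (k + 3 ≤ M ∧ m + 3 ≤ M ∧ (m : ℝ) - 1 < 2 * M * (u - ⌊u⌋) ∧ 2 * M * (u - ⌊u⌋) < m ∧
        (k : ℝ) - 1 < 2 * M * (v - ⌊v⌋) ∧ 2 * M * (v - ⌊v⌋) < k)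
  | .lk k m, u, v => 1 ≤ cc M k ∧ ⌊u⌋ = 2 * cc M k + 2 ∧ 3 < u ∧ u < 2 * M - 1 ∧ 2 < v ∧
      v < 2 * M - 1 ∧ (k + 3 ≤ M ∧ m + 3 ≤ M ∧ 2 * M * (u - ⌊u⌋) = m)

/-- the shapes of the vertical edges -/
def Sh.vert : Sh → Prop
  | .ax => True
  | .up _ => True
  | .pd _ => True
  | .bd _ => True
  | .lk _ _ => True
  | _ => False

/-- the shapes of the edges with the same outer end -/
def Sh.apex : Sh → Sh → Prop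
  | .yp _, .yp _ => True
  | .xu _, .xu _ => True
  | _, _ => False

/-- the shapes which are used for one side only -/
def Sh.sym : Sh → Prop
  | .uu => True
  | .qd => True
  | .ul _ _ => True
  | _ => False

theorem nat_of_eq {k k' : ℕ} (h : (k : ℝ) = k') : k = k' := by exact_mod_cast h

theorem no_between {k k' : ℕ} (h : (k : ℝ) - 1 < k') (h' : (k' : ℝ) < k) : False := by
  have h1 : k' < k := by exact_mod_cast h'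
  have h2 : (k : ℝ) < (k' + 1 : ℕ) := by push_cast; linarith
  have h3 : k < k' + 1 := by exact_mod_cast h2
  omega

theorem overlap {k k' : ℕ} {t : ℝ} (h1 : (k : ℝ) - 1 < t) (h2 : t < k) (h3 : (k' : ℝ) - 1 < t)
    (h4 : t < k') : k = k' := by
  have h5 : (k : ℝ) < (k' + 1 : ℕ) := by push_cast; linarith
  have h6 : (k' : ℝ) < (k + 1 : ℕ) := by push_cast; linarith
  have h7 : k < k' + 1 := by exact_mod_cast h5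
  have h8 : k' < k + 1 := by exact_mod_cast h6
  omega

theorem same {M : ℕ} (hM : 5 ≤ M) {a b : Sh} {u v : ℝ} (ha : Fct M a u v) (hb : Fct M b u v) :
    a = b ∨ Sh.apex a b := by
  have hM' : (5 : ℝ) ≤ M := by exact_mod_cast hM
  cases a <;> cases b <;> first
    | exact Or.inl rfl
    | exact Or.inr trivial
    | (exfalso; simp only [Fct] at ha hb; casesm* _ ∧ _; first | omega | linarith | contradiction)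
    | (left; simp only [Fct] at ha hb; casesm* _ ∧ _; congr 1 <;> omega)
    | skip
  · obtain ⟨h1, h2, h3, h4, h5, h6, h7, h8, h9, h10, h11, h12, h13, h14, h15, h16⟩ := ha
    obtain ⟨g1, g2, g3, g4, g5, g6, g7, g8, g9, g10, g11, g12, g13, g14, g15, g16⟩ := hb
    have e1 := cc_inj h11 g11 (by omega)
    have e2 := cc_inj h12 g12 (by omega)
    left
    rw [e1, e2]
  · obtain ⟨h1, h2, h3, h4, h5, h6, h7, h8, h9, h10, h11, h12, h13, h14, h15, h16⟩ := ha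
    obtain ⟨g1, g2, g3, g4, g5, g6, g7, g8, g9⟩ := hb
    rw [g9] at h13 h14
    exact (no_between h13 h14).elim
  · obtain ⟨h1, h2, h3, h4, h5, h6, h7, h8, h9, h10, h11, h12, h13, h14, h15, h16⟩ := hb
    obtain ⟨g1, g2, g3, g4, g5, g6, g7, g8, g9⟩ := ha
    rw [g9] at h13 h14
    exact (no_between h13 h14).elim
  · obtain ⟨h1, h2, h3, h4, h5, h6, h7, h8, h9⟩ := ha
    obtain ⟨g1, g2, g3, g4, g5, g6, g7, g8, g9⟩ := hb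
    have e1 := cc_inj h7 g7 (by omega)
    have e2 := nat_of_eq (h9.symm.trans g9)
    left
    rw [e1, e2]

theorem cross {M : ℕ} (hM : 5 ≤ M) {a b : Sh} {u v : ℝ} (ha : Fct M a u v) (hb : Fct M b v u) :
    (Sh.vert a ∧ Sh.vert b) ∨ (Sh.sym a ∧ Sh.sym b) := by
  have hM' : (5 : ℝ) ≤ M := by exact_mod_cast hM
  cases a <;> cases b <;> first
    | exact Or.inl ⟨trivial, trivial⟩
    | exact Or.inr ⟨trivial, trivial⟩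
    | (exfalso; simp only [Fct] at ha hb; casesm* _ ∧ _; first | omega | linarith | contradiction)
    | skip
  · obtain ⟨h1, h2, h3, h4, h5, h6, h7, h8, h9, h10, h11, h12, h13, h14, h15, h16⟩ := ha
    obtain ⟨g1, g2, g3, g4, g5, g6, g7, g8, g9⟩ := hb
    have e2 := cc_inj h12 g7 (by omega)
    rw [g9] at h15 h16
    exact (no_between h15 h16).elim
  · obtain ⟨h1, h2, h3, h4, h5, h6, h7, h8, h9, h10, h11, h12, h13, h14, h15, h16⟩ := hb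
    obtain ⟨g1, g2, g3, g4, g5, g6, g7, g8, g9⟩ := ha
    rw [g9] at h15 h16
    exact (no_between h15 h16).elim

end Pool.Agent.Helper40.DG2
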